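import Pool.Agent.H21.WB.Tr

/-!
# Row CDT of the board wdb (MP_64fb07_lc): tilings are coded by graphs of small tree-depth
-/

set_option autoImplicit false

namespace Pool.Agent.H21.WB

open Pool.Agent.H54.WB Pool.Agent.H69.Sp Pool.Agent.H69.VR Pool.Agent.H8.MC
open Pool.Agent.H8.PL (GridF)

theorem pf_CDT (hLDF : T_LDF) (hTDF : T_TDF) (hTSM : T_TSM) (hTTD : T_TTD) (hTEX : T_TEX)
    (hDDU : T_DDU) (hLGT : T_LGT) : T_CDT := by
  intro k Q _ U Hh Vv hsq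
  have hDf := hTDF Q (k + 1) U Hh Vv (by omega)
  obtain ⟨Ψ, hΨ1, hΨ⟩ := hLDF (Fin (k + 1 + 3) × Bool × Bool × Q)
    (fun V lb E => TRule (k + 1) U Hh Vv E (fun v => ((lb v).1 : ℕ)) (fun v => (lb v).2.1)
      (fun v => (lb v).2.2.1) (fun v => (lb v).2.2.2)) hDf
  refine ⟨Ψ, hΨ1, ?_, ?_⟩
  · intro n G P hn hP
    obtain ⟨lb, hlb⟩ := (hΨ n G hn).1 ⟨P, hP⟩
    obtain ⟨d, W, H, t, hW, hH, hd, h1, h2, h3, -, h4⟩ :=
      hTSM (Fin n) Q (k + 1) U Hh Vv G.Adj _ _ _ _ (fun u v huv => huv.symm) (by omega) hlb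
    have hWH := hsq W H t hW hH h3
    subst hWH
    refine ⟨W, t, hW, ?_, h3⟩
    have hdd := hDDU.1 (k + 1) d W hd h1 h2
    rw [Nat.card_fin] at h4
    unfold gT
    rw [← hdd]
    exact h4
  · obtain ⟨K₀, hK₀⟩ := hLGT k
    refine ⟨max K₀ (Tw (k + 1) 0 + 1), ?_⟩
    rintro K hK ⟨t, ht⟩
    have hK1 : K₀ ≤ K := (le_max_left _ _).trans hK
    have hK2 : Tw (k + 1) 0 < K := Nat.lt_of_succ_le ((le_max_right _ _).trans hK)
    obtain ⟨hd, h1, h2⟩ := hDDU.2.1 (k + 1) K hK2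
    obtain ⟨V, _, G, ro, bt, mk, ti, hR, hco, hcard⟩ :=
      hTEX Q (k + 1) U Hh Vv (dd (k + 1) K) K t (by omega) hd h1 h2 ht
    have hg : Nat.card V = gT (k + 1) K := hcard
    have hpos : 0 < gT (k + 1) K := by
      unfold gT
      omega
    have hne : Nonempty V := by
      by_contra hc
      rw [not_nonempty_iff] at hc
      rw [← hg, Nat.card_of_isEmpty] at hpos
      exact absurd hpos (lt_irrefl 0)
    have h : V ≃ Fin (gT (k + 1) K) := by
      rw [← hg]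
      exact Finite.equivFin V
    have hlt : ∀ v, ro v < k + 1 + 3 := fun v => by
      have := hR.rng v
      omega
    have hV := transfer hDf h (fun v => ((⟨ro v, hlt v⟩ : Fin (k + 1 + 3)), bt v, mk v, ti v))
      G.Adj hR
    obtain ⟨P, hP⟩ := (hΨ (gT (k + 1) K) (G.comap h.symm) hpos).2 ⟨_, hV⟩
    refine ⟨G.comap h.symm, P, ?_, hP⟩
    apply treeDepth_comap
    have h5 := hTTD V Q (k + 1) U Hh Vv G ro bt mk ti (by omega) hR
    rw [hco] at h5
    exact treeDepth_mono G (hK₀ K hK1) h5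

end Pool.Agent.H21.WB
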