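import Pool.Agent.H21.WB.Tr

/-!
# Row CDV of the board wdb (MP_64fb07_lc): tilings are coded by graphs of small vertex cover number
-/

set_option autoImplicit false

namespace Pool.Agent.H21.WB

open Pool.Agent.H54.WB Pool.Agent.H69.Sp Pool.Agent.H69.VR Pool.Agent.H8.MC
open Pool.Agent.H8.PL (GridF)

theorem clog_eq {a W : ℕ} (ha : 0 < a) (h1 : 2 ^ (a - 1) < W) (h2 : W ≤ 2 ^ a) :
    Nat.clog 2 W = a := by
  have h3 : Nat.clog 2 W ≤ a := Nat.clog_le_of_le_pow h2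
  have h4 : a - 1 < Nat.clog 2 W := (Nat.lt_clog_iff_pow_lt (by norm_num)).2 h1
  omega

theorem pf_CDV (hLDF : T_LDF) (hVDF : T_VDF) (hVSM : T_VSM) (hVEX : T_VEX) (hLGV : T_LGV) :
    T_CDV := by
  intro c Q _ U Hh Vv hsq
  have hDf := hVDF Q (c + 1) U Hh Vv
  obtain ⟨Ψ, hΨ1, hΨ⟩ := hLDF (Fin 5 × (Bool → Fin (2 ^ (c + 1))) × Q)
    (fun V lb E => VRule (c + 1) U Hh Vv E (fun v => ((lb v).1 : ℕ))
      (fun s v => ((lb v).2.1 s : ℕ)) (fun v => (lb v).2.2)) hDf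
  refine ⟨Ψ, hΨ1, ?_, ?_⟩
  · intro n G P hn hP
    obtain ⟨lb, hlb⟩ := (hΨ n G hn).1 ⟨P, hP⟩
    obtain ⟨b, b', W, H, t, hW, hH, hb, hb', h1, h2, h3, h4, h5, h6, -⟩ :=
      hVSM (Fin n) Q (c + 1) U Hh Vv G _ _ _ hlb
    have hWH := hsq W H t hW hH h5
    subst hWH
    refine ⟨W, t, hW, ?_, h5⟩
    have e1 := clog_eq (by omega) h1 h2
    have e2 := clog_eq (by omega) h3 h4
    rw [Nat.card_fin] at h6
    unfold gV
    omega
  · refine ⟨2 ^ (c + 1) + 1, ?_⟩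
    rintro K hK ⟨t, ht⟩
    have hm : c + 1 < Nat.clog 2 K := (Nat.lt_clog_iff_pow_lt (by norm_num)).2 (by omega)
    have hK1 : 1 < K := by
      have := Nat.one_le_two_pow (n := c + 1)
      omega
    have h1 : 2 ^ (Nat.clog 2 K - 1) < K := Nat.pow_pred_clog_lt_self (by norm_num) hK1
    have h2 : K ≤ 2 ^ Nat.clog 2 K := Nat.le_pow_clog (by norm_num) K
    obtain ⟨V, _, G, ro, lo, ti, hR, hcard, hco⟩ :=
      hVEX Q (c + 1) U Hh Vv (Nat.clog 2 K - (c + 1)) K t (by omega)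
        (by rwa [show c + 1 + (Nat.clog 2 K - (c + 1)) - 1 = Nat.clog 2 K - 1 by omega])
        (by rwa [show c + 1 + (Nat.clog 2 K - (c + 1)) = Nat.clog 2 K by omega]) ht
    have hg : Nat.card V = gV (c + 1) K := hcard
    have hpos : 0 < gV (c + 1) K := by
      unfold gV
      omega
    have hne : Nonempty V := by
      by_contra hc
      rw [not_nonempty_iff] at hc
      rw [← hg, Nat.card_of_isEmpty] at hpos
      exact absurd hpos (lt_irrefl 0)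
    have h : V ≃ Fin (gV (c + 1) K) := by
      rw [← hg]
      exact Finite.equivFin V
    have hlt : ∀ v, ro v < 5 := fun v => by
      have := hR.rng v
      omega
    have hV := transfer hDf h (fun v => ((⟨ro v, hlt v⟩ : Fin 5),
      (fun s => (⟨lo s v, hR.low s v⟩ : Fin (2 ^ (c + 1)))), ti v)) G.Adj hR
    obtain ⟨P, hP⟩ := (hΨ (gV (c + 1) K) (G.comap h.symm) hpos).2 ⟨_, hV⟩
    refine ⟨G.comap h.symm, P, ⟨2 * (Nat.clog 2 K - (c + 1)), ?_, cover_comap h G _ hco⟩, hP⟩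
    exact hLGV c K hm.le

end Pool.Agent.H21.WB
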