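import Pool.Agent.H54.WB.TargetsA

/-!
# Transport of labelled graphs along bijections (rows CDT and CDV of the board wdb, MP_64fb07_lc)
-/

set_option autoImplicit false

namespace Pool.Agent.H21.WB

open Pool.Agent.H54.WB

/-- satisfaction is invariant under bijections -/
theorem sat_equiv {Λ V V' : Type} (h : V ≃ V') (lb : V → Λ) (E : V → V → Prop) (φ : LF Λ) :
    ∀ e : ℕ → V, φ.Sat (fun a => lb (h.symm a)) (fun a b => E (h.symm a) (h.symm b))
      (fun i => h (e i)) ↔ φ.Sat lb E e := by
  induction φ with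
  | lab s x => intro e; simp [LF.Sat]
  | adj x y => intro e; simp [LF.Sat]
  | eq x y => intro e; simp [LF.Sat]
  | neg φ ih => intro e; exact not_congr (ih e)
  | and φ ψ ih1 ih2 => intro e; exact and_congr (ih1 e) (ih2 e)
  | ex x φ ih =>
    intro e
    have key : ∀ a : V, Function.update (fun i => h (e i)) x (h a) =
        fun i => h (Function.update e x a i) := by
      intro a
      funext i
      by_cases hi : i = x
      · rw [hi, Function.update_self, Function.update_self]
      · rw [Function.update_of_ne hi, Function.update_of_ne hi]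
    constructor
    · rintro ⟨a, ha⟩
      refine ⟨h.symm a, ?_⟩
      rw [← ih, ← key, h.apply_symm_apply]
      exact ha
    · rintro ⟨a, ha⟩
      refine ⟨h a, ?_⟩
      rw [key, ih]
      exact ha

/-- definable properties are invariant under bijections -/
theorem transfer {Λ : Type} {p : (V : Type) → (V → Λ) → (V → V → Prop) → Prop}
    (hp : Df (fun V lb E _ => p V lb E)) {V V' : Type} [Nonempty V] (h : V ≃ V') (lb : V → Λ)
    (E : V → V → Prop) (hV : p V lb E) :
    p V' (fun a => lb (h.symm a)) (fun a b => E (h.symm a) (h.symm b)) := by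
  obtain ⟨φ, hφ⟩ := hp
  obtain ⟨a⟩ : Nonempty V := inferInstance
  have h1 := (hφ V lb E (fun _ => a)).2 hV
  have h2 := (sat_equiv h lb E φ (fun _ => a)).2 h1
  exact (hφ V' _ _ _).1 h2

theorem treeDepth_comap {V V' : Type} (h : V ≃ V') (G : SimpleGraph V) (k : ℕ)
    (hG : TreeDepthLE G k) : TreeDepthLE (G.comap h.symm) k := by
  obtain ⟨anc, ⟨⟨h1, h2, h3⟩, h4⟩, h5⟩ := hG
  refine ⟨fun u v => anc (h.symm u) (h.symm v), ⟨⟨fun v => h1 _, fun u v w => h2 _ _ _, ?_⟩, ?_⟩, ?_⟩
  · intro u v w hu hv
    rcases h3 _ _ _ hu hv with h6 | h6 | h6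
    · exact Or.inl (h.symm.injective h6)
    · exact Or.inr (Or.inl h6)
    · exact Or.inr (Or.inr h6)
  · intro u v huv
    exact h4 _ _ huv
  · intro v
    have h6 : {u | anc (h.symm u) (h.symm v)} = h '' {u | anc u (h.symm v)} := by
      ext u
      constructor
      · intro hu
        exact ⟨h.symm u, hu, h.apply_symm_apply u⟩
      · rintro ⟨w, hw, rfl⟩
        show anc (h.symm (h w)) (h.symm v)
        rw [h.symm_apply_apply]
        exact hw
    rw [h6, Set.ncard_image_of_injective _ h.injective]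
    exact h5 _

theorem treeDepth_mono {V : Type} (G : SimpleGraph V) {k k' : ℕ} (hk : k ≤ k')
    (hG : TreeDepthLE G k) : TreeDepthLE G k' := by
  obtain ⟨anc, h1, h2⟩ := hG
  exact ⟨anc, h1, fun v => (h2 v).trans_le hk⟩

theorem cover_comap {V V' : Type} (h : V ≃ V') (G : SimpleGraph V) (k : ℕ)
    (hG : VertexCoverLE G k) : VertexCoverLE (G.comap h.symm) k := by
  obtain ⟨X, h1, h2⟩ := hG
  refine ⟨h '' X, ?_, ?_⟩
  · rw [Set.ncard_image_of_injective _ h.injective]
    exact h1
  · intro u v huv
    rcases h2 _ _ huv with h3 | h3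
    · exact Or.inl ⟨_, h3, h.apply_symm_apply u⟩
    · exact Or.inr ⟨_, h3, h.apply_symm_apply v⟩

end Pool.Agent.H21.WB
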